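import Mathlib

set_option autoImplicit false

namespace Pool.Agent.Helper12.TB

variable {K : Type} [Field K] {r k : ℕ}

/-- hypotheses: simple vector set, k-block, minimal -/
structure Tang (k : ℕ) (S : Finset (Fin r → K)) : Prop where
  zero : (0 : Fin r → K) ∉ S
  simp : ∀ s ∈ S, ∀ t ∈ S, ∀ c : K, s = c • t → s = t
  block : ∀ f : (Fin r → K) →ₗ[K] (Fin k → K), ∃ s ∈ S, f s = 0
  tang : ∀ F : Finset (Fin r → K), F ⊆ S → F.Nonempty →
      (∀ s ∈ S, s ∈ Submodule.span K (F : Set (Fin r → K)) → s ∈ F) →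
      ∃ f : (Fin r → K) →ₗ[K] (Fin k → K),
        (∀ x ∈ F, f x = 0) ∧ ∀ s ∈ S, s ∉ F → f s ≠ 0

theorem exactP {S : Finset (Fin r → K)} (H : Tang k S) (P : Submodule K (Fin r → K))
    (hP : ∃ s ∈ S, s ∈ P) :
    ∃ f : (Fin r → K) →ₗ[K] (Fin k → K),
      (∀ s ∈ S, s ∈ P → f s = 0) ∧ ∀ s ∈ S, s ∉ P → f s ≠ 0 := by
  classical
  obtain ⟨s0, hs0, hs0P⟩ := hP
  obtain ⟨f, hf1, hf2⟩ := H.tang (S.filter (fun s => s ∈ P)) (Finset.filter_subset _ _)
    ⟨s0, by simp [hs0, hs0P]⟩ (by
      intro s hs hsp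
      have : Submodule.span K ((S.filter (fun s => s ∈ P) : Finset (Fin r → K)) :
          Set (Fin r → K)) ≤ P := by
        rw [Submodule.span_le]
        intro x hx
        simp only [Finset.coe_filter, Set.mem_ofPred_eq] at hx
        exact hx.2
      simp [hs, this hsp])
  refine ⟨f, fun s hs hsP => hf1 s (by simp [hs, hsP]), fun s hs hsP => hf2 s hs (by simp [hsP])⟩

/-- data of a copoint with its functional -/
structure Cop (S X : Finset (Fin r → K)) (h : (Fin r → K) →ₗ[K] K) : Prop where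
  sub : X ⊆ S
  zero : ∀ x ∈ X, h x = 0
  nz : ∀ s ∈ S, s ∉ X → h s ≠ 0

theorem exists_cop {S X : Finset (Fin r → K)} (hX : X ⊆ S)
    (hfl : ∀ s ∈ S, s ∈ Submodule.span K (X : Set (Fin r → K)) → s ∈ X)
    (hrk : Module.finrank K (Submodule.span K (X : Set (Fin r → K))) + 1 =
        Module.finrank K (Submodule.span K (S : Set (Fin r → K)))) :
    ∃ h : (Fin r → K) →ₗ[K] K, Cop S X h ∧ ∃ t ∈ S, t ∉ X := by
  classical
  have hne : ∃ t ∈ S, t ∉ X := by
    by_contra hcon
    push Not at hcon
    have : X = S := Finset.Subset.antisymm hX hcon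
    rw [this] at hrk
    omega
  obtain ⟨t, htS, htX⟩ := hne
  have htP : t ∉ Submodule.span K (X : Set (Fin r → K)) := fun hh => htX (hfl t htS hh)
  obtain ⟨h, h1, h2⟩ := Submodule.exists_dual_map_eq_bot_of_notMem htP inferInstance
  have hle : Submodule.span K (X : Set (Fin r → K)) ≤ LinearMap.ker h := by
    intro x hx
    rw [LinearMap.mem_ker]
    have : h x ∈ Submodule.map h (Submodule.span K (X : Set (Fin r → K))) := ⟨x, hx, rfl⟩
    rw [h2] at this
    exact (Submodule.mem_bot K).mp this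
  refine ⟨h, ⟨hX, fun x hx => LinearMap.mem_ker.mp (hle (Submodule.subset_span hx)), ?_⟩,
    t, htS, htX⟩
  intro s hs hsX hsz
  have hsP : s ∉ Submodule.span K (X : Set (Fin r → K)) := fun hh => hsX (hfl s hs hh)
  set P := Submodule.span K (X : Set (Fin r → K)) with hPdef
  set Q := Submodule.span K (S : Set (Fin r → K)) with hQdef
  have hPQ : P ≤ Q := Submodule.span_mono (by exact_mod_cast hX)
  have h3 : P < P ⊔ Submodule.span K {s} := by
    refine lt_of_le_of_ne le_sup_left ?_
    intro heq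
    apply hsP
    rw [heq]
    exact Submodule.mem_sup_right (Submodule.mem_span_singleton_self s)
  have h4 := Submodule.finrank_lt_finrank_of_lt h3
  have h5 : P ⊔ Submodule.span K {s} ≤ Q ⊓ LinearMap.ker h := by
    refine sup_le (le_inf hPQ hle) ?_
    rw [Submodule.span_singleton_le_iff_mem]
    exact ⟨Submodule.subset_span hs, hsz⟩
  have h6 : Q ⊓ LinearMap.ker h < Q := by
    refine lt_of_le_of_ne inf_le_left ?_
    intro heq
    have : t ∈ Q ⊓ LinearMap.ker h := by
      rw [heq]; exact Submodule.subset_span htS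
    exact h1 this.2
  have h7 := Submodule.finrank_lt_finrank_of_lt h6
  have h8 := Submodule.finrank_mono h5
  omega

/-- a functional without zeros on `X` takes every value on the normalised complement -/
theorem onto {S X : Finset (Fin r → K)} (H : Tang k S) {h : (Fin r → K) →ₗ[K] K}
    (C : Cop S X h) (f : (Fin r → K) →ₗ[K] (Fin k → K)) (hf : ∀ x ∈ X, f x ≠ 0)
    (v : Fin k → K) : ∃ t ∈ S, t ∉ X ∧ f ((h t)⁻¹ • t) = v := by
  obtain ⟨s, hs, hz⟩ := H.block (f - h.smulRight v)
  have hz' : f s = h s • v := by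
    have := hz
    simp only [LinearMap.sub_apply, LinearMap.smulRight_apply] at this
    exact sub_eq_zero.mp this
  have hsX : s ∉ X := by
    intro hx
    apply hf s hx
    rw [hz', C.zero s hx, zero_smul]
  refine ⟨s, hs, hsX, ?_⟩
  rw [map_smul, hz', smul_smul, inv_mul_cancel₀ (C.nz s hs hsX), one_smul]


theorem hatne {S X : Finset (Fin r → K)} (H : Tang k S) {h : (Fin r → K) →ₗ[K] K}
    (C : Cop S X h) {s t : Fin r → K} (hs : s ∈ S) (hsX : s ∉ X) (ht : t ∈ S) (htX : t ∉ X)
    (heq : (h s)⁻¹ • s = (h t)⁻¹ • t) : s = t := by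
  have h1 : s = (h s * (h t)⁻¹) • t := by
    rw [mul_smul, ← heq, smul_smul, mul_inv_cancel₀ (C.nz s hs hsX), one_smul]
  exact H.simp s hs t ht _ h1

theorem hhat {S X : Finset (Fin r → K)} {h : (Fin r → K) →ₗ[K] K}
    (C : Cop S X h) {t : Fin r → K} (ht : t ∈ S) (htX : t ∉ X) : h ((h t)⁻¹ • t) = 1 := by
  rw [map_smul, smul_eq_mul, inv_mul_cancel₀ (C.nz t ht htX)]

/-- exact functional on a single point -/
theorem exact1 {S : Finset (Fin r → K)} (H : Tang k S) {e : Fin r → K} (he : e ∈ S) :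
    ∃ f : (Fin r → K) →ₗ[K] (Fin k → K), f e = 0 ∧ ∀ s ∈ S, s ≠ e → f s ≠ 0 := by
  obtain ⟨f, hf1, hf2⟩ := exactP H (Submodule.span K {e}) ⟨e, he, Submodule.mem_span_singleton_self e⟩
  refine ⟨f, hf1 e he (Submodule.mem_span_singleton_self e), fun s hs hse => hf2 s hs ?_⟩
  intro hh
  obtain ⟨c, hc⟩ := Submodule.mem_span_singleton.mp hh
  exact hse (H.simp s hs e he c hc.symm)

theorem finrank_map_add {r' : ℕ} (g : (Fin r → K) →ₗ[K] (Fin r' → K))
    (W : Submodule K (Fin r → K)) :
    Module.finrank K (W.map g) + Module.finrank K (W ⊓ LinearMap.ker g : Submodule K (Fin r → K)) =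
      Module.finrank K W := by
  have h1 := LinearMap.finrank_range_add_finrank_ker (g.domRestrict W)
  have h2 : LinearMap.range (g.domRestrict W) = W.map g := by
    ext x
    simp only [LinearMap.mem_range, LinearMap.domRestrict_apply, Submodule.mem_map]
    constructor
    · rintro ⟨y, rfl⟩; exact ⟨y, y.2, rfl⟩
    · rintro ⟨y, hy, rfl⟩; exact ⟨⟨y, hy⟩, rfl⟩
  have h3 : (LinearMap.ker (g.domRestrict W)).map W.subtype = W ⊓ LinearMap.ker g := by
    ext x
    simp only [Submodule.mem_map, LinearMap.mem_ker, LinearMap.domRestrict_apply,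
      Submodule.mem_inf, Submodule.subtype_apply]
    constructor
    · rintro ⟨y, hy, rfl⟩; exact ⟨y.2, hy⟩
    · rintro ⟨hx, hx2⟩; exact ⟨⟨x, hx⟩, hx2, rfl⟩
  have h4 := Submodule.finrank_map_subtype_eq W (LinearMap.ker (g.domRestrict W))
  rw [h2, ← h4, h3] at h1
  exact h1

theorem finrank_map_add' (g : (Fin r → K) →ₗ[K] K)
    (W : Submodule K (Fin r → K)) :
    Module.finrank K (W.map g) + Module.finrank K (W ⊓ LinearMap.ker g : Submodule K (Fin r → K)) =
      Module.finrank K W := by
  have h1 := LinearMap.finrank_range_add_finrank_ker (g.domRestrict W)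
  have h2 : LinearMap.range (g.domRestrict W) = W.map g := by
    ext x
    simp only [LinearMap.mem_range, LinearMap.domRestrict_apply, Submodule.mem_map]
    constructor
    · rintro ⟨y, rfl⟩; exact ⟨y, y.2, rfl⟩
    · rintro ⟨y, hy, rfl⟩; exact ⟨⟨y, hy⟩, rfl⟩
  have h3 : (LinearMap.ker (g.domRestrict W)).map W.subtype = W ⊓ LinearMap.ker g := by
    ext x
    simp only [Submodule.mem_map, LinearMap.mem_ker, LinearMap.domRestrict_apply,
      Submodule.mem_inf, Submodule.subtype_apply]
    constructor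
    · rintro ⟨y, hy, rfl⟩; exact ⟨y.2, hy⟩
    · rintro ⟨hx, hx2⟩; exact ⟨⟨x, hx⟩, hx2, rfl⟩
  have h4 := Submodule.finrank_map_subtype_eq W (LinearMap.ker (g.domRestrict W))
  rw [h2, ← h4, h3] at h1
  exact h1

theorem le_span_of_finrank_le_one {P : Submodule K (Fin r → K)} (hP : Module.finrank K P ≤ 1)
    {a b : Fin r → K} (ha : a ∈ P) (ha0 : a ≠ 0) (hb : b ∈ P) : b ∈ Submodule.span K {a} := by
  have h1 : Submodule.span K {a} ≤ P := by
    rw [Submodule.span_singleton_le_iff_mem]; exact ha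
  have h2 : Module.finrank K (Submodule.span K {a}) = 1 := finrank_span_singleton ha0
  have h3 : Submodule.span K {a} = P := Submodule.eq_of_le_of_finrank_le h1 (by omega)
  rw [h3]; exact hb

variable [Fintype K]

open Classical in
theorem card_lower {S X : Finset (Fin r → K)} (H : Tang k S) {h : (Fin r → K) →ₗ[K] K}
    (C : Cop S X h) (f : (Fin r → K) →ₗ[K] (Fin k → K)) (hf : ∀ x ∈ X, f x ≠ 0) :
    (Fintype.card K) ^ k ≤ (S \ X).card := by
  have h1 : (Finset.univ : Finset (Fin k → K)) ⊆
      (S \ X).image (fun t => f ((h t)⁻¹ • t)) := by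
    intro v _
    obtain ⟨t, ht, htX, hv⟩ := onto H C f hf v
    exact Finset.mem_image.mpr ⟨t, Finset.mem_sdiff.mpr ⟨ht, htX⟩, hv⟩
  have h2 := Finset.card_le_card h1
  have h3 : (Finset.univ : Finset (Fin k → K)).card = (Fintype.card K) ^ k := by
    rw [Finset.card_univ]; simp
  rw [h3] at h2
  exact h2.trans Finset.card_image_le

open Classical in
/-- case A -/
theorem caseA {S X : Finset (Fin r → K)} (H : Tang k S) {h : (Fin r → K) →ₗ[K] K}
    (C : Cop S X h) (hT : ∃ t ∈ S, t ∉ X)
    (hns : ∃ e ∈ S, e ∉ Submodule.span K ((S : Set (Fin r → K)) \ (X : Set (Fin r → K)))) :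
    (Fintype.card K) ^ k < (S \ X).card := by
  set W := Submodule.span K ((S : Set (Fin r → K)) \ (X : Set (Fin r → K))) with hW
  obtain ⟨t0, ht0, ht0X⟩ := hT
  obtain ⟨e, he, heW⟩ := hns
  obtain ⟨f0, hf0e, hf0⟩ := exact1 H he
  have hTW : ∀ t ∈ S, t ∉ X → t ∈ W := fun t ht htX => Submodule.subset_span ⟨ht, htX⟩
  have hf0W : ∀ s ∈ S, s ∈ W → f0 s ≠ 0 := by
    intro s hs hsW
    apply hf0 s hs
    rintro rfl
    exact heW hsW
  obtain ⟨f1, hf1t, hf1⟩ := exact1 H ht0
  have hf1X : ∀ x ∈ X, f1 x ≠ 0 := by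
    intro x hx
    apply hf1 x (C.sub hx)
    rintro rfl
    exact ht0X hx
  by_contra hcon
  push Not at hcon
  have hcard := card_lower H C f1 hf1X
  have hcardeq : (S \ X).card = (Fintype.card K) ^ k := le_antisymm hcon hcard
  -- every functional without zeros on X is injective on the normalised complement
  have hinj : ∀ f : (Fin r → K) →ₗ[K] (Fin k → K), (∀ x ∈ X, f x ≠ 0) →
      ∀ s ∈ S, s ∉ X → ∀ t ∈ S, t ∉ X → f ((h s)⁻¹ • s) = f ((h t)⁻¹ • t) → s = t := by
    intro f hf s hs hsX t ht htX heq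
    have h1 : (Finset.univ : Finset (Fin k → K)) ⊆
        (S \ X).image (fun t => f ((h t)⁻¹ • t)) := by
      intro v _
      obtain ⟨t, ht, htX, hv⟩ := onto H C f hf v
      exact Finset.mem_image.mpr ⟨t, Finset.mem_sdiff.mpr ⟨ht, htX⟩, hv⟩
    have h2 := Finset.card_le_card h1
    have h3 : (Finset.univ : Finset (Fin k → K)).card = (Fintype.card K) ^ k := by
      rw [Finset.card_univ]; simp
    rw [h3, ← hcardeq] at h2
    have h4 : ((S \ X).image (fun t => f ((h t)⁻¹ • t))).card = (S \ X).card :=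
      le_antisymm Finset.card_image_le h2
    have h5 := Finset.card_image_iff.mp h4
    exact h5 (by simp [hs, hsX]) (by simp [ht, htX]) heq
  -- f0 is injective on the normalised complement
  have hinj0 : ∀ s ∈ S, s ∉ X → ∀ t ∈ S, t ∉ X →
      f0 ((h s)⁻¹ • s) = f0 ((h t)⁻¹ • t) → s = t := by
    intro s hs hsX t ht htX heq
    by_contra hne
    obtain ⟨f2, hf2a, hf2b⟩ := exactP H (Submodule.span K {s, t})
      ⟨s, hs, Submodule.subset_span (by simp)⟩
    have hs0 : f2 s = 0 := hf2a s hs (Submodule.subset_span (by simp))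
    have ht0' : f2 t = 0 := hf2a t ht (Submodule.subset_span (by simp))
    have hX2 : ∀ x ∈ X, f2 x ≠ 0 := by
      intro x hx
      apply hf2b x (C.sub hx)
      intro hxP
      rw [Submodule.mem_span_pair] at hxP
      obtain ⟨a, b, hab⟩ := hxP
      have hxW : x ∈ W := by
        rw [← hab]
        exact W.add_mem (W.smul_mem _ (hTW s hs hsX)) (W.smul_mem _ (hTW t ht htX))
      have hh0 : a * h s + b * h t = 0 := by
        have := C.zero x hx
        rw [← hab, map_add, map_smul, map_smul, smul_eq_mul, smul_eq_mul] at this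
        exact this
      apply hf0W x (C.sub hx) hxW
      rw [← hab, map_add, map_smul, map_smul]
      have hfs : f0 s = h s • f0 ((h s)⁻¹ • s) := by
        rw [map_smul, smul_smul, mul_inv_cancel₀ (C.nz s hs hsX), one_smul]
      have hft : f0 t = h t • f0 ((h t)⁻¹ • t) := by
        rw [map_smul, smul_smul, mul_inv_cancel₀ (C.nz t ht htX), one_smul]
      rw [hfs, hft, heq, smul_smul, smul_smul, ← add_smul, hh0, zero_smul]
    apply hne
    apply hinj f2 hX2 s hs hsX t ht htX
    rw [map_smul, map_smul, hs0, ht0']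
    simp
  have h6 : (S \ X).card ≤ ((Finset.univ : Finset (Fin k → K)).erase 0).card := by
    apply Finset.card_le_card_of_injOn (fun t => f0 ((h t)⁻¹ • t))
    · intro t ht
      simp only [Finset.coe_sdiff, Set.mem_sdiff, Finset.mem_coe] at ht
      simp only [Finset.coe_erase, Finset.coe_univ, Set.mem_sdiff, Set.mem_univ, true_and,
        Set.mem_singleton_iff]
      rw [map_smul]
      exact smul_ne_zero (inv_ne_zero (C.nz t ht.1 ht.2)) (hf0W t ht.1 (hTW t ht.1 ht.2))
    · intro s hs t ht heq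
      simp only [Finset.coe_sdiff, Set.mem_sdiff, Finset.mem_coe] at hs ht
      exact hinj0 s hs.1 hs.2 t ht.1 ht.2 heq
  have h7 : ((Finset.univ : Finset (Fin k → K)).erase 0).card = (Fintype.card K) ^ k - 1 := by
    rw [Finset.card_erase_of_mem (Finset.mem_univ _), Finset.card_univ]; simp
  have h8 : 0 < (Fintype.card K) ^ k := pow_pos Fintype.card_pos _
  omega


open Classical in
/-- case B -/
theorem caseB {S X : Finset (Fin r → K)} (H : Tang k S) {h : (Fin r → K) →ₗ[K] K}
    (C : Cop S X h) (hT : ∃ t ∈ S, t ∉ X)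
    (hns : ∃ e ∈ S, e ∉ Submodule.span K ((S : Set (Fin r → K)) \ (X : Set (Fin r → K))))
    (hcard : (Fintype.card K) ^ k < (S \ X).card)
    (hrk : Module.finrank K (Submodule.span K ((S : Set (Fin r → K)) \ (X : Set (Fin r → K))))
      ≤ k + 2) : False := by
  set W := Submodule.span K ((S : Set (Fin r → K)) \ (X : Set (Fin r → K))) with hW
  obtain ⟨t0, ht0, ht0X⟩ := hT
  obtain ⟨e, he, heW⟩ := hns
  obtain ⟨f0, hf0e, hf0⟩ := exact1 H he
  have hTW : ∀ t ∈ S, t ∉ X → t ∈ W := fun t ht htX => Submodule.subset_span ⟨ht, htX⟩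
  have hf0W : ∀ s ∈ S, s ∈ W → f0 s ≠ 0 := by
    intro s hs hsW
    apply hf0 s hs
    rintro rfl
    exact heW hsW
  have hnW : ∀ t ∈ S, t ∉ X → (h t)⁻¹ • t ∈ W := fun t ht htX => W.smul_mem _ (hTW t ht htX)
  set U := W ⊓ LinearMap.ker h with hU
  have hU1 : Module.finrank K U ≤ k + 1 := by
    have h1 := finrank_map_add' h W
    have h2 : Module.finrank K (W.map h) = 1 := by
      have h3 : W.map h = ⊤ := by
        rw [eq_top_iff]
        intro c _
        refine ⟨(c * (h t0)⁻¹) • t0, W.smul_mem _ (hTW t0 ht0 ht0X), ?_⟩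
        rw [map_smul, smul_eq_mul, mul_assoc, inv_mul_cancel₀ (C.nz t0 ht0 ht0X), mul_one]
      rw [h3, finrank_top, Module.finrank_self]
    rw [← hU] at h1
    omega
  have hdiffU : ∀ s ∈ S, s ∉ X → ∀ w ∈ W, h w = 1 → w - (h s)⁻¹ • s ∈ U := by
    intro s hs hsX w hw hw1
    refine ⟨W.sub_mem hw (hnW s hs hsX), ?_⟩
    change h (w - (h s)⁻¹ • s) = 0
    rw [map_sub, hw1, hhat C hs hsX, sub_self]
  -- surjectivity on U of functionals without zeros on X
  have hsurj : ∀ f : (Fin r → K) →ₗ[K] (Fin k → K), (∀ x ∈ X, f x ≠ 0) → U.map f = ⊤ := by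
    intro f hf
    rw [eq_top_iff]
    intro v _
    obtain ⟨t1, ht1, ht1X, hv1⟩ := onto H C f hf v
    obtain ⟨t2, ht2, ht2X, hv2⟩ := onto H C f hf 0
    refine ⟨(h t1)⁻¹ • t1 - (h t2)⁻¹ • t2,
      hdiffU t2 ht2 ht2X _ (hnW t1 ht1 ht1X) (hhat C ht1 ht1X), ?_⟩
    rw [map_sub, hv1, hv2, sub_zero]
  have hker1 : ∀ f : (Fin r → K) →ₗ[K] (Fin k → K), (∀ x ∈ X, f x ≠ 0) →
      Module.finrank K (U ⊓ LinearMap.ker f : Submodule K (Fin r → K)) ≤ 1 := by
    intro f hf
    have h1 := finrank_map_add f U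
    rw [hsurj f hf, finrank_top, Module.finrank_fin_fun] at h1
    omega
  -- (a)
  have ha : ∀ c ∈ U, c ≠ 0 → (∀ s ∈ S, s ∉ Submodule.span K {c}) →
      ∃ f : (Fin r → K) →ₗ[K] (Fin k → K), (∀ x ∈ X, f x ≠ 0) ∧ f c = 0 := by
    intro c hc hc0 hcS
    have h1 : ((Finset.univ : Finset (Fin r → K)).filter (fun v => v ∈ U)).card <
        ((S \ X) ×ˢ (Finset.univ : Finset K)).card := by
      have h2 : ((Finset.univ : Finset (Fin r → K)).filter (fun v => v ∈ U)).card =
          (Fintype.card K) ^ (Module.finrank K U) := by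
        rw [← Fintype.card_subtype]
        have := Module.card_eq_pow_finrank (K := K) (V := U)
        rw [← this]
      rw [h2, Finset.card_product, Finset.card_univ]
      have h3 : (Fintype.card K) ^ (Module.finrank K U) ≤ (Fintype.card K) ^ (k + 1) :=
        Nat.pow_le_pow_right Fintype.card_pos hU1
      have h4 : (Fintype.card K) ^ (k + 1) < (S \ X).card * Fintype.card K := by
        rw [pow_succ]
        exact Nat.mul_lt_mul_of_pos_right hcard Fintype.card_pos
      omega
    obtain ⟨⟨t1, l1⟩, hp1, ⟨t2, l2⟩, hp2, hne, heq⟩ :=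
      Finset.exists_ne_map_eq_of_card_lt_of_maps_to h1
        (f := fun p : (Fin r → K) × K => (h p.1)⁻¹ • p.1 - (h t0)⁻¹ • t0 + p.2 • c) (by
          rintro ⟨t, l⟩ hp
          simp only [Finset.coe_product, Finset.coe_sdiff, Finset.coe_univ, Set.mem_prod,
            Set.mem_sdiff, Finset.mem_coe, Set.mem_univ, and_true] at hp
          simp only [Finset.coe_filter, Finset.mem_univ, true_and]
          exact U.add_mem (hdiffU t0 ht0 ht0X _ (hnW t hp.1 hp.2) (hhat C hp.1 hp.2))
            (U.smul_mem _ hc))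
    simp only [Finset.mem_product, Finset.mem_sdiff, Finset.mem_univ, and_true] at hp1 hp2
    simp only at heq
    have heq2 : (h t1)⁻¹ • t1 - (h t2)⁻¹ • t2 = (l2 - l1) • c := by
      rw [sub_smul]
      have := heq
      linear_combination (exp := 1) this
    have ht12 : t1 ≠ t2 := by
      rintro rfl
      rw [sub_self] at heq2
      have : l2 - l1 = 0 := by
        rcases smul_eq_zero.mp heq2.symm with h5 | h5
        · exact h5
        · exact absurd h5 hc0
      apply hne
      rw [sub_eq_zero.mp this]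
    have hl : l2 - l1 ≠ 0 := by
      intro h5
      rw [h5, zero_smul, sub_eq_zero] at heq2
      exact ht12 (hatne H C hp1.1 hp1.2 hp2.1 hp2.2 heq2)
    obtain ⟨f2, hf2a, hf2b⟩ := exactP H (Submodule.span K {t1, t2})
      ⟨t1, hp1.1, Submodule.subset_span (by simp)⟩
    have hs0 : f2 t1 = 0 := hf2a t1 hp1.1 (Submodule.subset_span (by simp))
    have ht0' : f2 t2 = 0 := hf2a t2 hp2.1 (Submodule.subset_span (by simp))
    refine ⟨f2, ?_, ?_⟩
    · intro x hx
      apply hf2b x (C.sub hx)
      intro hxP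
      rw [Submodule.mem_span_pair] at hxP
      obtain ⟨a, b, hab⟩ := hxP
      have hh0 : a * h t1 + b * h t2 = 0 := by
        have := C.zero x hx
        rw [← hab, map_add, map_smul, map_smul, smul_eq_mul, smul_eq_mul] at this
        exact this
      apply hcS x (C.sub hx)
      rw [Submodule.mem_span_singleton]
      refine ⟨(a * h t1) * (l2 - l1), ?_⟩
      rw [mul_smul, ← heq2, smul_sub, smul_smul, smul_smul, mul_assoc,
        mul_inv_cancel₀ (C.nz t1 hp1.1 hp1.2), mul_one, ← hab]
      have h6 : a * h t1 = - (b * h t2) := by linear_combination hh0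
      rw [h6, neg_mul, mul_assoc, mul_inv_cancel₀ (C.nz t2 hp2.1 hp2.2), mul_one, neg_smul,
        sub_neg_eq_add]
    · have h7 : f2 ((l2 - l1) • c) = 0 := by
        rw [← heq2, map_sub, map_smul, map_smul, hs0, ht0']; simp
      rw [map_smul] at h7
      rcases smul_eq_zero.mp h7 with h8 | h8
      · exact absurd h8 hl
      · exact h8
  -- (a2)
  have ha2 : ∀ c ∈ U, c ≠ 0 → (∀ s ∈ S, s ∉ Submodule.span K {c}) → ∀ w ∈ W, h w = 1 →
      ∃ t ∈ S, t ∉ X ∧ w - (h t)⁻¹ • t ∈ Submodule.span K {c} := by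
    intro c hc hc0 hcS w hw hw1
    obtain ⟨f, hfX, hfc⟩ := ha c hc hc0 hcS
    obtain ⟨t, ht, htX, hv⟩ := onto H C f hfX (f w)
    refine ⟨t, ht, htX, ?_⟩
    refine le_span_of_finrank_le_one (hker1 f hfX) (a := c) ⟨hc, hfc⟩ hc0
      ⟨hdiffU t ht htX w hw hw1, ?_⟩
    change f (w - (h t)⁻¹ • t) = 0
    rw [map_sub, hv, sub_self]
  -- (b)
  have hb : ∀ c1 ∈ U, ∀ c2 ∈ U, c1 ≠ 0 → c2 ∉ Submodule.span K {c1} →
      (∀ s ∈ S, s ∉ Submodule.span K {c1, c2}) → False := by
    intro c1 hc1 c2 hc2 hc10 hind hS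
    have hsing : ∀ c ∈ Submodule.span K {c1, c2}, ∀ s ∈ S, s ∉ Submodule.span K {c} := by
      intro c hc s hs hsc
      apply hS s hs
      obtain ⟨a, ha⟩ := Submodule.mem_span_singleton.mp hsc
      rw [← ha]
      exact Submodule.smul_mem _ _ hc
    have hc1m : c1 ∈ Submodule.span K {c1, c2} := Submodule.subset_span (by simp)
    have hc2m : c2 ∈ Submodule.span K {c1, c2} := Submodule.subset_span (by simp)
    have hc20 : c2 ≠ 0 := by
      rintro rfl
      exact hind (Submodule.zero_mem _)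
    have hw1 : h ((h t0)⁻¹ • t0 + c2) = 1 := by
      rw [map_add, hhat C ht0 ht0X, LinearMap.mem_ker.mp hc2.2, add_zero]
    obtain ⟨t1, ht1, ht1X, hd1⟩ := ha2 c1 hc1 hc10 (hsing c1 hc1m) ((h t0)⁻¹ • t0 + c2)
      (W.add_mem (hnW t0 ht0 ht0X) hc2.1) hw1
    obtain ⟨α, hα⟩ := Submodule.mem_span_singleton.mp hd1
    -- t1 hat = t0 hat + c3
    set c3 := c2 - α • c1 with hc3
    have hc3m : c3 ∈ Submodule.span K {c1, c2} :=
      Submodule.sub_mem _ hc2m (Submodule.smul_mem _ _ hc1m)
    have hc3U : c3 ∈ U := U.sub_mem hc2 (U.smul_mem _ hc1)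
    have hc30 : c3 ≠ 0 := by
      intro h5
      apply hind
      rw [Submodule.mem_span_singleton]
      exact ⟨α, (sub_eq_zero.mp h5).symm⟩
    have ht1eq : (h t1)⁻¹ • t1 = (h t0)⁻¹ • t0 + c3 := by
      rw [hc3]
      linear_combination (exp := 1) hα
    have hw2 : h ((h t0)⁻¹ • t0 + c1) = 1 := by
      rw [map_add, hhat C ht0 ht0X, LinearMap.mem_ker.mp hc1.2, add_zero]
    obtain ⟨t2, ht2, ht2X, hd2⟩ := ha2 c3 hc3U hc30 (hsing c3 hc3m) ((h t0)⁻¹ • t0 + c1)
      (W.add_mem (hnW t0 ht0 ht0X) hc1.1) hw2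
    obtain ⟨β, hβ⟩ := Submodule.mem_span_singleton.mp hd2
    have ht2eq : (h t2)⁻¹ • t2 = (h t0)⁻¹ • t0 + (c1 - β • c3) := by
      linear_combination (exp := 1) hβ
    obtain ⟨f2, hf2a, hf2b⟩ := exactP H (Submodule.span K {t0, t1, t2})
      ⟨t0, ht0, Submodule.subset_span (by simp)⟩
    have hz0 : f2 t0 = 0 := hf2a t0 ht0 (Submodule.subset_span (by simp))
    have hz1 : f2 t1 = 0 := hf2a t1 ht1 (Submodule.subset_span (by simp))
    have hz2 : f2 t2 = 0 := hf2a t2 ht2 (Submodule.subset_span (by simp))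
    have hX2 : ∀ x ∈ X, f2 x ≠ 0 := by
      intro x hx
      apply hf2b x (C.sub hx)
      intro hxP
      rw [Submodule.mem_span_triple] at hxP
      obtain ⟨a, b, d, hab⟩ := hxP
      have hh0 : a * h t0 + b * h t1 + d * h t2 = 0 := by
        have := C.zero x hx
        rw [← hab, map_add, map_add, map_smul, map_smul, map_smul, smul_eq_mul, smul_eq_mul,
          smul_eq_mul] at this
        exact this
      apply hS x (C.sub hx)
      have e0 : t0 = h t0 • ((h t0)⁻¹ • t0) := by
        rw [smul_smul, mul_inv_cancel₀ (C.nz t0 ht0 ht0X), one_smul]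
      have e1 : t1 = h t1 • ((h t0)⁻¹ • t0 + c3) := by
        rw [← ht1eq, smul_smul, mul_inv_cancel₀ (C.nz t1 ht1 ht1X), one_smul]
      have e2 : t2 = h t2 • ((h t0)⁻¹ • t0 + (c1 - β • c3)) := by
        rw [← ht2eq, smul_smul, mul_inv_cancel₀ (C.nz t2 ht2 ht2X), one_smul]
      have hx' : x = (b * h t1) • c3 + (d * h t2) • (c1 - β • c3) := by
        have e3 : x = (a * h t0 + b * h t1 + d * h t2) • ((h t0)⁻¹ • t0) +
            ((b * h t1) • c3 + (d * h t2) • (c1 - β • c3)) := by
          rw [← hab]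
          conv_lhs => rw [e1, e2]
          nth_rewrite 1 [e0]
          module
        rw [e3, hh0, zero_smul, zero_add]
      rw [hx']
      exact Submodule.add_mem _ (Submodule.smul_mem _ _ hc3m)
        (Submodule.smul_mem _ _ (Submodule.sub_mem _ hc1m (Submodule.smul_mem _ _ hc3m)))
    have hfc3 : f2 c3 = 0 := by
      have : c3 = (h t1)⁻¹ • t1 - (h t0)⁻¹ • t0 := by rw [ht1eq]; abel
      rw [this, map_sub, map_smul, map_smul, hz1, hz0]; simp
    have hfc1 : f2 c1 = 0 := by
      have : c1 = (h t2)⁻¹ • t2 - (h t0)⁻¹ • t0 + β • c3 := by rw [ht2eq]; abel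
      rw [this, map_add, map_sub, map_smul, map_smul, map_smul, hz2, hz0, hfc3]; simp
    have hfc2 : f2 c2 = 0 := by
      have : c2 = c3 + α • c1 := by rw [hc3]; abel
      rw [this, map_add, map_smul, hfc3, hfc1]; simp
    exact hind (le_span_of_finrank_le_one (hker1 f2 hX2) (a := c1) ⟨hc1, hfc1⟩ hc10 ⟨hc2, hfc2⟩)
  -- (c)
  have hK0 : Module.finrank K (U ⊓ LinearMap.ker f0 : Submodule K (Fin r → K)) ≤ 1 := by
    by_contra hcon
    push Not at hcon
    set K0 := U ⊓ LinearMap.ker f0 with hK0def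
    have hne : K0 ≠ ⊥ := by
      intro h5
      rw [h5, finrank_bot] at hcon
      omega
    obtain ⟨c1, hc1, hc10⟩ := Submodule.exists_mem_ne_zero_of_ne_bot hne
    have hnle : ¬ K0 ≤ Submodule.span K {c1} := by
      intro h5
      have h6 := Submodule.finrank_mono h5
      rw [finrank_span_singleton hc10] at h6
      omega
    obtain ⟨c2, hc2, hc2n⟩ := SetLike.not_le_iff_exists.mp hnle
    apply hb c1 hc1.1 c2 hc2.1 hc10 hc2n
    intro s hs hsp
    have h7 : Submodule.span K {c1, c2} ≤ K0 := by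
      rw [Submodule.span_le]
      intro x hx
      rcases hx with rfl | rfl
      · exact hc1
      · exact hc2
    have h8 := h7 hsp
    exact hf0W s hs h8.1.1 h8.2
  -- dimension of U is k+1
  have hUge : k + 1 ≤ Module.finrank K U := by
    by_contra hcon
    push Not at hcon
    have h1 : ((Finset.univ : Finset (Fin r → K)).filter (fun v => v ∈ U)).card < (S \ X).card := by
      have h2 : ((Finset.univ : Finset (Fin r → K)).filter (fun v => v ∈ U)).card =
          (Fintype.card K) ^ (Module.finrank K U) := by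
        rw [← Fintype.card_subtype]
        have := Module.card_eq_pow_finrank (K := K) (V := U)
        rw [← this]
      rw [h2]
      have h3 : (Fintype.card K) ^ (Module.finrank K U) ≤ (Fintype.card K) ^ k :=
        Nat.pow_le_pow_right Fintype.card_pos (by omega)
      omega
    obtain ⟨t1, hp1, t2, hp2, hne, heq⟩ :=
      Finset.exists_ne_map_eq_of_card_lt_of_maps_to h1
        (f := fun p : (Fin r → K) => (h p)⁻¹ • p - (h t0)⁻¹ • t0) (by
          intro t hp
          simp only [Finset.coe_sdiff, Set.mem_sdiff, Finset.mem_coe] at hp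
          simp only [Finset.coe_filter, Finset.mem_univ, true_and]
          exact hdiffU t0 ht0 ht0X _ (hnW t hp.1 hp.2) (hhat C hp.1 hp.2))
    simp only [Finset.mem_sdiff] at hp1 hp2
    exact hne (hatne H C hp1.1 hp1.2 hp2.1 hp2.2 (sub_left_inj.mp heq))
  have hf0U : U.map f0 = ⊤ := by
    have h1 := finrank_map_add f0 U
    apply Submodule.eq_top_of_finrank_eq
    rw [Module.finrank_fin_fun]
    have h2 : Module.finrank K (U.map f0) ≤ k := by
      have := Submodule.finrank_le (U.map f0)
      rwa [Module.finrank_fin_fun] at this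
    omega
  -- point with f0 = 0
  have : - f0 ((h t0)⁻¹ • t0) ∈ U.map f0 := by rw [hf0U]; trivial
  obtain ⟨u, huU, hu⟩ := this
  have hne : U ⊓ LinearMap.ker f0 ≠ ⊥ := by
    intro h5
    have h1 := finrank_map_add f0 U
    rw [h5, finrank_bot, hf0U, finrank_top, Module.finrank_fin_fun] at h1
    omega
  obtain ⟨c, hc, hc0⟩ := Submodule.exists_mem_ne_zero_of_ne_bot hne
  have hcS : ∀ s ∈ S, s ∉ Submodule.span K {c} := by
    intro s hs hsc
    have h7 : Submodule.span K {c} ≤ U ⊓ LinearMap.ker f0 := by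
      rw [Submodule.span_singleton_le_iff_mem]; exact hc
    have h8 := h7 hsc
    exact hf0W s hs h8.1.1 h8.2
  have hw : h ((h t0)⁻¹ • t0 + u) = 1 := by
    rw [map_add, hhat C ht0 ht0X, LinearMap.mem_ker.mp huU.2, add_zero]
  obtain ⟨t, ht, htX, htd⟩ := ha2 c hc.1 hc0 hcS ((h t0)⁻¹ • t0 + u)
    (W.add_mem (hnW t0 ht0 ht0X) huU.1) hw
  have h9 : f0 ((h t0)⁻¹ • t0 + u - (h t)⁻¹ • t) = 0 := by
    have h7 : Submodule.span K {c} ≤ U ⊓ LinearMap.ker f0 := by
      rw [Submodule.span_singleton_le_iff_mem]; exact hc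
    exact (h7 htd).2
  rw [map_sub, map_add, hu, add_neg_cancel, zero_sub, neg_eq_zero, map_smul] at h9
  rcases smul_eq_zero.mp h9 with h10 | h10
  · exact inv_ne_zero (C.nz t ht htX) h10
  · exact hf0W t ht (hTW t ht htX) h10

theorem exists_nonspan {S X : Finset (Fin r → K)}
    (hns : Submodule.span K ((S : Set (Fin r → K)) \ (X : Set (Fin r → K))) ≠
      Submodule.span K (S : Set (Fin r → K))) :
    ∃ e ∈ S, e ∉ Submodule.span K ((S : Set (Fin r → K)) \ (X : Set (Fin r → K))) := by
  by_contra hcon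
  push Not at hcon
  apply hns
  apply le_antisymm (Submodule.span_mono Set.sdiff_subset)
  rw [Submodule.span_le]
  intro s hs
  exact hcon s hs

open Classical in
theorem partA {S X : Finset (Fin r → K)} (H : Tang k S) (hX : X ⊆ S)
    (hfl : ∀ s ∈ S, s ∈ Submodule.span K (X : Set (Fin r → K)) → s ∈ X)
    (hrk : Module.finrank K (Submodule.span K (X : Set (Fin r → K))) + 1 =
        Module.finrank K (Submodule.span K (S : Set (Fin r → K))))
    (hns : Submodule.span K ((S : Set (Fin r → K)) \ (X : Set (Fin r → K))) ≠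
      Submodule.span K (S : Set (Fin r → K))) :
    (Fintype.card K) ^ k < (S \ X).card ∧
      k + 3 ≤ Module.finrank K
        (Submodule.span K ((S : Set (Fin r → K)) \ (X : Set (Fin r → K)))) := by
  obtain ⟨h, C, hT⟩ := exists_cop hX hfl hrk
  have h1 := exists_nonspan hns
  have h2 := caseA H C hT h1
  refine ⟨h2, ?_⟩
  by_contra hcon
  exact caseB H C hT h1 h2 (by omega)

/-- the flat cut out by a subspace spanned by points of `S` -/
theorem flat_of_span {S : Finset (Fin r → K)} {B : Set (Fin r → K)} (hB : B ⊆ (S : Set (Fin r → K))) :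
    ∃ X : Finset (Fin r → K), X ⊆ S ∧ (∀ s, s ∈ X ↔ s ∈ S ∧ s ∈ Submodule.span K B) ∧
      Submodule.span K (X : Set (Fin r → K)) = Submodule.span K B ∧
      (∀ s ∈ S, s ∈ Submodule.span K (X : Set (Fin r → K)) → s ∈ X) := by
  classical
  have hmem : ∀ s, s ∈ S.filter (fun s => s ∈ Submodule.span K B) ↔
      s ∈ S ∧ s ∈ Submodule.span K B := fun s => Finset.mem_filter
  have hsp : Submodule.span K ((S.filter (fun s => s ∈ Submodule.span K B) :
      Finset (Fin r → K)) : Set (Fin r → K)) = Submodule.span K B := by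
    apply le_antisymm
    · rw [Submodule.span_le]
      intro s hs
      exact ((hmem s).mp hs).2
    · rw [Submodule.span_le]
      intro s hs
      exact Submodule.subset_span ((hmem s).mpr ⟨hB hs, Submodule.subset_span hs⟩)
  refine ⟨S.filter (fun s => s ∈ Submodule.span K B), Finset.filter_subset _ _, hmem, hsp, ?_⟩
  intro s hs hs2
  rw [hsp] at hs2
  exact (hmem s).mpr ⟨hs, hs2⟩

theorem exists_basis_fin (A : Set (Fin r → K)) :
    ∃ b : Finset (Fin r → K), (b : Set (Fin r → K)) ⊆ A ∧
      Submodule.span K (b : Set (Fin r → K)) = Submodule.span K A ∧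
      LinearIndepOn K id (b : Set (Fin r → K)) ∧
      b.card = Module.finrank K (Submodule.span K A) := by
  obtain ⟨b, hbA, hsp, hli⟩ := exists_linearIndependent K A
  have hfin : b.Finite := Set.toFinite b
  obtain ⟨b', rfl⟩ := hfin.exists_finset_coe
  have hli' : LinearIndepOn K id (b' : Set (Fin r → K)) := hli
  refine ⟨b', hbA, hsp, hli', ?_⟩
  rw [← hsp]
  exact (finrank_span_finset_eq_card hli').symm

open Classical in
theorem exists_copoint {S : Finset (Fin r → K)} (h0 : (0 : Fin r → K) ∉ S) (hne : S.Nonempty) :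
    ∃ X : Finset (Fin r → K), X ⊆ S ∧
      (∀ s ∈ S, s ∈ Submodule.span K (X : Set (Fin r → K)) → s ∈ X) ∧
      Module.finrank K (Submodule.span K (X : Set (Fin r → K))) + 1 =
        Module.finrank K (Submodule.span K (S : Set (Fin r → K))) := by
  obtain ⟨b, hbS, hsp, hli, hcard⟩ := exists_basis_fin (K := K) (S : Set (Fin r → K))
  have hbne : b.Nonempty := by
    rw [Finset.nonempty_iff_ne_empty]
    rintro rfl
    obtain ⟨s, hs⟩ := hne
    have : s ∈ Submodule.span K (S : Set (Fin r → K)) := Submodule.subset_span hs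
    rw [← hsp] at this
    simp at this
    exact h0 (this ▸ hs)
  obtain ⟨i, hi⟩ := hbne
  obtain ⟨X, hX, hmem, hXsp, hfl⟩ := flat_of_span (K := K) (S := S) (B := (b.erase i : Finset (Fin r → K)))
    (fun s hs => hbS (Finset.mem_of_mem_erase hs))
  refine ⟨X, hX, hfl, ?_⟩
  rw [hXsp, ← hcard]
  have hli2 : LinearIndepOn K id ((b.erase i : Finset (Fin r → K)) : Set (Fin r → K)) :=
    hli.mono (by exact_mod_cast Finset.erase_subset _ _)
  rw [finrank_span_finset_eq_card hli2, Finset.card_erase_of_mem hi]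
  have := Finset.card_pos.mpr ⟨i, hi⟩
  omega

theorem ker_of_span {X : Set (Fin r → K)} {h : (Fin r → K) →ₗ[K] K} (hX : ∀ x ∈ X, h x = 0)
    {v : Fin r → K} (hv : v ∈ Submodule.span K X) : h v = 0 := by
  have : Submodule.span K X ≤ LinearMap.ker h := by
    rw [Submodule.span_le]
    intro x hx
    exact hX x hx
  exact this hv

open Classical in
/-- coordinates: a vector in all spans of `b` minus one element except possibly `i0` is a
multiple of `i0` -/
theorem mem_of_all {b : Finset (Fin r → K)} (hli : LinearIndepOn K id (b : Set (Fin r → K)))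
    {i0 i1 : Fin r → K} (hi0 : i0 ∈ b) (hi1 : i1 ∈ b.erase i0) {v : Fin r → K}
    (hv : ∀ i ∈ b.erase i0, v ∈ Submodule.span K ((b.erase i : Finset (Fin r → K)) :
      Set (Fin r → K))) : ∃ c : K, v = c • i0 := by
  have hvb : v ∈ Submodule.span K (b : Set (Fin r → K)) :=
    Submodule.span_mono (by exact_mod_cast Finset.erase_subset _ _) (hv i1 hi1)
  obtain ⟨c, -, hc⟩ := Submodule.mem_span_finset.mp hvb
  have hz : ∀ i ∈ b.erase i0, c i = 0 := by
    intro i hi
    have hib : i ∈ b := Finset.mem_of_mem_erase hi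
    obtain ⟨d, -, hd⟩ := Submodule.mem_span_finset.mp (hv i hi)
    have h1 : ∑ a ∈ b, (c a - if a = i then 0 else d a) • (id a : Fin r → K) = 0 := by
      simp only [id, sub_smul, Finset.sum_sub_distrib, hc]
      rw [sub_eq_zero, ← hd, ← Finset.add_sum_erase b _ hib]
      simp only [if_true, zero_smul, zero_add]
      apply Finset.sum_congr rfl
      intro a ha
      rw [if_neg (Finset.ne_of_mem_erase ha)]
    have h2 := (linearIndepOn_finset_iff.mp hli) _ h1 i hib
    simpa using h2
  refine ⟨c i0, ?_⟩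
  rw [← hc, ← Finset.add_sum_erase b _ hi0]
  have h3 : ∑ x ∈ b.erase i0, c x • x = 0 := by
    apply Finset.sum_eq_zero
    intro a ha
    rw [hz a ha, zero_smul]
  rw [h3, add_zero]

open Classical in
theorem partC {S : Finset (Fin r → K)} (H : Tang k S)
    (hrk : Module.finrank K (Submodule.span K (S : Set (Fin r → K))) = k + 4)
    (hno : ∀ X : Finset (Fin r → K), X ⊆ S →
      (∀ s ∈ S, s ∈ Submodule.span K (X : Set (Fin r → K)) → s ∈ X) →
      Module.finrank K (Submodule.span K (X : Set (Fin r → K))) + 1 =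
        Module.finrank K (Submodule.span K (S : Set (Fin r → K))) →
      Submodule.span K ((S : Set (Fin r → K)) \ (X : Set (Fin r → K))) ≠
        Submodule.span K (S : Set (Fin r → K))) :
    (Fintype.card K) ^ k < (k + 3) ^ (k + 2) := by
  have hSne : S.Nonempty := by
    rw [Finset.nonempty_iff_ne_empty]
    intro hS0
    rw [hS0, Finset.coe_empty, Submodule.span_empty, finrank_bot] at hrk
    omega
  have rkc : ∀ X : Finset (Fin r → K), X ⊆ S →
      (∀ s ∈ S, s ∈ Submodule.span K (X : Set (Fin r → K)) → s ∈ X) →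
      Module.finrank K (Submodule.span K (X : Set (Fin r → K))) = k + 3 →
      (Fintype.card K) ^ k < (S \ X).card ∧ Module.finrank K
        (Submodule.span K ((S : Set (Fin r → K)) \ (X : Set (Fin r → K)))) = k + 3 := by
    intro X hX hfl hX3
    have h1 := hno X hX hfl (by omega)
    obtain ⟨h2, h3⟩ := partA H hX hfl (by omega) h1
    have h4 : Submodule.span K ((S : Set (Fin r → K)) \ (X : Set (Fin r → K))) <
        Submodule.span K (S : Set (Fin r → K)) :=
      lt_of_le_of_ne (Submodule.span_mono Set.sdiff_subset) h1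
    have h5 := Submodule.finrank_lt_finrank_of_lt h4
    exact ⟨h2, by omega⟩
  obtain ⟨X, hX, hXfl, hXrk⟩ := exists_copoint H.zero hSne
  have hXrk' : Module.finrank K (Submodule.span K (X : Set (Fin r → K))) = k + 3 := by omega
  obtain ⟨h, C, -⟩ := exists_cop hX hXfl hXrk
  obtain ⟨-, hTrk⟩ := rkc X hX hXfl hXrk'
  obtain ⟨b, hbT, hbsp, hli, hbcard⟩ :=
    exists_basis_fin (K := K) ((S : Set (Fin r → K)) \ (X : Set (Fin r → K)))
  rw [hTrk] at hbcard
  obtain ⟨X', hX', hX'mem, hX'sp, hX'fl⟩ := flat_of_span (K := K) (S := S)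
    (B := (S : Set (Fin r → K)) \ (X : Set (Fin r → K))) Set.sdiff_subset
  have hX'rk : Module.finrank K (Submodule.span K (X' : Set (Fin r → K))) = k + 3 := by
    rw [hX'sp]; exact hTrk
  obtain ⟨h', C', -⟩ := exists_cop hX' hX'fl (by omega)
  obtain ⟨hT'card, hT'rk⟩ := rkc X' hX' hX'fl hX'rk
  have hT'X : ∀ s ∈ S, s ∉ X' → s ∈ X := by
    intro s hs hsX'
    by_contra hsX
    exact hsX' ((hX'mem s).mpr ⟨hs, Submodule.subset_span ⟨hs, hsX⟩⟩)
  have hT'sp : Submodule.span K ((S : Set (Fin r → K)) \ (X' : Set (Fin r → K))) =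
      Submodule.span K (X : Set (Fin r → K)) := by
    apply Submodule.eq_of_le_of_finrank_eq
    · apply Submodule.span_mono
      rintro s ⟨hs, hs2⟩
      exact hT'X s hs hs2
    · rw [hT'rk, hXrk']
  have hbS : ∀ i ∈ b, i ∈ S := fun i hi => (hbT hi).1
  have hbX : ∀ i ∈ b, i ∉ X := fun i hi => (hbT hi).2
  have hbX' : ∀ i ∈ b, i ∈ X' := fun i hi =>
    (hX'mem i).mpr ⟨hbS i hi, Submodule.subset_span (hbT hi)⟩
  -- the erased sets
  have hEker : ∀ i, ∀ v ∈ Submodule.span K ((b.erase i : Finset (Fin r → K)) :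
      Set (Fin r → K)), h' v = 0 := by
    intro i v hv
    refine ker_of_span (X := ((b.erase i : Finset (Fin r → K)) : Set (Fin r → K))) ?_ hv
    intro x hx
    exact C'.zero x (hbX' x (Finset.mem_of_mem_erase hx))
  have hEli : ∀ i, LinearIndepOn K id ((b.erase i : Finset (Fin r → K)) : Set (Fin r → K)) :=
    fun i => hli.mono (by exact_mod_cast Finset.erase_subset _ _)
  have hEi : ∀ i ∈ b, i ∉ Submodule.span K ((b.erase i : Finset (Fin r → K)) :
      Set (Fin r → K)) := by
    intro i hi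
    have h1 : LinearIndepOn K id (insert i ((b.erase i : Finset (Fin r → K)) :
      Set (Fin r → K))) := by
      rw [← Finset.coe_insert, Finset.insert_erase hi]; exact hli
    rw [linearIndepOn_id_insert_iff] at h1
    intro h2
    have h3 := h1.2 h2
    exact (Finset.notMem_erase i b) h3
  set P : (Fin r → K) → (Fin r → K) → Submodule K (Fin r → K) :=
    fun i t => Submodule.span K (insert t ((b.erase i : Finset (Fin r → K)) :
      Set (Fin r → K))) with hP
  have hPrk : ∀ i ∈ b, ∀ t ∈ S, t ∉ X' → Module.finrank K (P i t) = k + 3 := by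
    intro i hi t ht htX'
    have h1 : t ∉ Submodule.span K ((b.erase i : Finset (Fin r → K)) : Set (Fin r → K)) := by
      intro h2
      exact C'.nz t ht htX' (hEker i t h2)
    have h2 : LinearIndepOn K id (((insert t (b.erase i) : Finset (Fin r → K))) :
        Set (Fin r → K)) := by
      rw [Finset.coe_insert]
      exact (hEli i).id_insert h1
    have h3 := finrank_span_finset_eq_card h2
    rw [Finset.coe_insert] at h3
    rw [hP]
    simp only
    rw [h3, Finset.card_insert_of_notMem (fun h4 => h1 (Submodule.subset_span h4)),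
      Finset.card_erase_of_mem hi]
    omega
  have hPself : ∀ i t, t ∈ P i t := fun i t => Submodule.subset_span (Set.mem_insert _ _)
  have hPE : ∀ i t, Submodule.span K ((b.erase i : Finset (Fin r → K)) : Set (Fin r → K)) ≤
      P i t := fun i t => Submodule.span_mono (Set.subset_insert _ _)
  have hPP : ∀ i ∈ b, ∀ t ∈ S, t ∉ X' → ∀ s ∈ S, s ∉ X' → s ∈ P i t → P i s = P i t := by
    intro i hi t ht htX' s hs hsX' hst
    apply Submodule.eq_of_le_of_finrank_eq
    · rw [hP]
      simp only
      rw [Submodule.span_le]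
      rintro x (rfl | hx)
      · exact hst
      · exact hPE i t (Submodule.subset_span hx)
    · rw [hPrk i hi t ht htX', hPrk i hi s hs hsX']
  have hkey : ∀ i ∈ b, ∀ t ∈ S, t ∉ X' → ∃ s ∈ S, s ∉ X' ∧ s ∈ P i t ∧
      ∃ g : (Fin r → K) →ₗ[K] K, g s ≠ 0 ∧ ∀ u ∈ S, u ∉ X' → u ∉ P i t → g u = 0 := by
    intro i hi t ht htX'
    obtain ⟨Y, hY, hYmem, hYsp, hYfl⟩ := flat_of_span (K := K) (S := S)
      (B := insert t ((b.erase i : Finset (Fin r → K)) : Set (Fin r → K))) (by
        rintro x (rfl | hx)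
        · exact ht
        · exact hbS x (Finset.mem_of_mem_erase hx))
    have hYrk : Module.finrank K (Submodule.span K (Y : Set (Fin r → K))) = k + 3 := by
      rw [hYsp]; exact hPrk i hi t ht htX'
    obtain ⟨-, hYc⟩ := rkc Y hY hYfl hYrk
    have hiP : i ∉ P i t := by
      intro h1
      rw [hP] at h1
      simp only at h1
      rw [Submodule.mem_span_insert] at h1
      obtain ⟨a, z, hz, haz⟩ := h1
      have h2 : h' i = a * h' t := by
        conv_lhs => rw [haz]
        rw [map_add, map_smul, hEker i z hz, add_zero, smul_eq_mul]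
      rw [C'.zero i (hbX' i hi)] at h2
      have h3 : a = 0 := by
        rcases mul_eq_zero.mp h2.symm with h4 | h4
        · exact h4
        · exact absurd h4 (C'.nz t ht htX')
      rw [h3, zero_smul, zero_add] at haz
      apply hEi i hi
      rw [haz] 
      rw [← haz]
      exact haz ▸ hz
    have hiSY : i ∈ Submodule.span K ((S : Set (Fin r → K)) \ (Y : Set (Fin r → K))) := by
      apply Submodule.subset_span
      refine ⟨hbS i hi, ?_⟩
      intro h1
      exact hiP ((hYmem i).mp h1).2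
    have hex : ∃ s ∈ S, s ∉ X' ∧
        s ∉ Submodule.span K ((S : Set (Fin r → K)) \ (Y : Set (Fin r → K))) := by
      by_contra hcon
      push Not at hcon
      have h1 : Submodule.span K (X : Set (Fin r → K)) ≤
          Submodule.span K ((S : Set (Fin r → K)) \ (Y : Set (Fin r → K))) := by
        rw [← hT'sp, Submodule.span_le]
        rintro s ⟨hs, hs2⟩
        exact hcon s hs hs2
      have h2 : Submodule.span K (X : Set (Fin r → K)) =
          Submodule.span K ((S : Set (Fin r → K)) \ (Y : Set (Fin r → K))) :=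
        Submodule.eq_of_le_of_finrank_eq h1 (by rw [hXrk', hYc])
      rw [← h2] at hiSY
      exact hbX i hi (hXfl i (hbS i hi) hiSY)
    obtain ⟨s, hs, hsX', hsY⟩ := hex
    obtain ⟨g, hg1, hg2⟩ := Submodule.exists_dual_map_eq_bot_of_notMem hsY inferInstance
    refine ⟨s, hs, hsX', ?_, g, hg1, ?_⟩
    · by_contra h1
      apply hsY
      apply Submodule.subset_span
      exact ⟨hs, fun h2 => h1 ((hYmem s).mp h2).2⟩
    · intro u hu huX' huP
      have h1 : u ∈ Submodule.span K ((S : Set (Fin r → K)) \ (Y : Set (Fin r → K))) :=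
        Submodule.subset_span ⟨hu, fun h2 => huP ((hYmem u).mp h2).2⟩
      have h2 : g u ∈ Submodule.map g
        (Submodule.span K ((S : Set (Fin r → K)) \ (Y : Set (Fin r → K)))) := ⟨u, h1, rfl⟩
      rw [hg2] at h2
      exact (Submodule.mem_bot K).mp h2
  -- the classes
  set I : (Fin r → K) → Finset (Submodule K (Fin r → K)) :=
    fun i => (S \ X').image (P i) with hI
  have hIcard : ∀ i ∈ b, (I i).card ≤ k + 3 := by
    intro i hi
    have hch : ∀ p : (I i), ∃ s ∈ S, s ∉ X' ∧ P i s = p ∧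
        ∃ g : (Fin r → K) →ₗ[K] K, g s ≠ 0 ∧ ∀ u ∈ S, u ∉ X' → P i u ≠ p → g u = 0 := by
      rintro ⟨p, hp⟩
      rw [hI] at hp
      simp only [Finset.mem_image, Finset.mem_sdiff] at hp
      obtain ⟨t, ⟨ht, htX'⟩, rfl⟩ := hp
      obtain ⟨s, hs, hsX', hsP, g, hg1, hg2⟩ := hkey i hi t ht htX'
      refine ⟨s, hs, hsX', hPP i hi t ht htX' s hs hsX' hsP, g, hg1, ?_⟩
      intro u hu huX' hne
      apply hg2 u hu huX'
      intro h1
      exact hne (hPP i hi t ht htX' u hu huX' h1)
    choose s hs hsX' hsp g hg1 hg2 using hch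
    have hlin : LinearIndependent K s := by
      rw [linearIndependent_iff']
      intro A c hc q hq
      have h1 : g q (∑ p ∈ A, c p • s p) = 0 := by rw [hc, map_zero]
      rw [map_sum, Finset.sum_eq_single q] at h1
      · rw [map_smul, smul_eq_mul] at h1
        rcases mul_eq_zero.mp h1 with h2 | h2
        · exact h2
        · exact absurd h2 (hg1 q)
      · intro p _ hpq
        rw [map_smul, hg2 q (s p) (hs p) (hsX' p), smul_zero]
        intro h2
        rw [hsp p] at h2
        exact hpq (Subtype.ext h2)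
      · intro h2; exact absurd hq h2
    have h1 := finrank_span_eq_card hlin
    have h2 : Submodule.span K (Set.range s) ≤
        Submodule.span K ((S : Set (Fin r → K)) \ (X' : Set (Fin r → K))) := by
      apply Submodule.span_mono
      rintro x ⟨p, rfl⟩
      exact ⟨hs p, hsX' p⟩
    have h3 := Submodule.finrank_mono h2
    rw [hT'rk, h1, Fintype.card_coe] at h3
    exact h3
  -- choose i0
  have hbne : b.Nonempty := by
    rw [← Finset.card_pos]; omega
  obtain ⟨i0, hi0⟩ := hbne
  have hbe : (b.erase i0).card = k + 2 := by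
    rw [Finset.card_erase_of_mem hi0]; omega
  have hbene : (b.erase i0).Nonempty := by
    rw [← Finset.card_pos]; omega
  obtain ⟨i1, hi1⟩ := hbene
  have hfin : (S \ X').card ≤ ((b.erase i0).pi (fun i => I i)).card := by
    apply Finset.card_le_card_of_injOn (fun t => fun i _ => P i t)
    · intro t ht
      simp only [Finset.coe_sdiff, Set.mem_sdiff, Finset.mem_coe] at ht
      simp only [Finset.mem_coe, Finset.mem_pi]
      intro i _
      rw [hI]
      exact Finset.mem_image_of_mem _ (Finset.mem_sdiff.mpr ht)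
    · intro s hs t ht heq
      simp only [Finset.coe_sdiff, Set.mem_sdiff, Finset.mem_coe] at hs ht
      have heq2 : ∀ i ∈ b.erase i0, P i s = P i t := by
        intro i hi
        have := congrFun (congrFun heq i) hi
        exact this
      have hmem : ∀ i ∈ b.erase i0, s - (h' s * (h' t)⁻¹) • t ∈
          Submodule.span K ((b.erase i : Finset (Fin r → K)) : Set (Fin r → K)) := by
        intro i hi
        have h1 : s ∈ P i t := by rw [← heq2 i hi]; exact hPself i s
        rw [hP] at h1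
        simp only at h1
        rw [Submodule.mem_span_insert] at h1
        obtain ⟨a, z, hz, haz⟩ := h1
        have h2 : h' s = a * h' t := by
          rw [haz, map_add, map_smul, hEker i z hz, add_zero, smul_eq_mul]
        have h3 : h' s * (h' t)⁻¹ = a := by
          rw [h2, mul_assoc, mul_inv_cancel₀ (C'.nz t ht.1 ht.2), mul_one]
        rw [h3, haz, add_sub_cancel_left]
        exact hz
      obtain ⟨c, hc⟩ := mem_of_all hli hi0 hi1 hmem
      have h1 : h (s - (h' s * (h' t)⁻¹) • t) = 0 := by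
        rw [map_sub, map_smul, C.zero s (hT'X s hs.1 hs.2), C.zero t (hT'X t ht.1 ht.2)]
        simp
      rw [hc, map_smul, smul_eq_mul] at h1
      have h2 : c = 0 := by
        rcases mul_eq_zero.mp h1 with h3 | h3
        · exact h3
        · exact absurd h3 (C.nz i0 (hbS i0 hi0) (hbX i0 hi0))
      rw [h2, zero_smul, sub_eq_zero] at hc
      exact H.simp s hs.1 t ht.1 _ hc
  rw [Finset.card_pi] at hfin
  have hprod : ∏ i ∈ b.erase i0, (I i).card ≤ (k + 3) ^ (b.erase i0).card :=
    Finset.prod_le_pow_card _ _ _ (fun i hi => hIcard i (Finset.mem_of_mem_erase hi))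
  rw [hbe] at hprod
  omega

end Pool.Agent.Helper12.TB
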